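import Pool.Agent.Helper54.DT.StmtsH

/-! Hardness of few nonlinear constraints: the reductions. -/

set_option autoImplicit false

namespace Pool.Agent.Helper35.DCT

open Finset Pool.Agent.Helper54.ETR Pool.Agent.Helper54.Poly Pool.Agent.Helper54.DI
open Pool.Agent.Helper54.DT

/-- a polynomial time family of formulas gives a reduction -/
theorem hardf_gen (P : Form → Prop) (F : List Bool → Form) (hP : ∀ u, P (F u))
    (hpt : PT (fun u => (F u).toks)) (hiff : ∀ u, u ∈ ETR ↔ ∃ x : ℕ → ℝ, (F u).Holds x) :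
    RedTo P := by
  have hf : PT (fun u : List Bool => (F u).toks.flatMap Tok.bits) := PTbits hpt
  exact ⟨fun u => (F u).toks.flatMap Tok.bits, polytime_list (fun l : List Bool => l) _
    (fun l => ((F l).toks.flatMap Tok.bits).reverse) (PT.reverse hf) fun _ => rfl,
    fun u => ⟨F u, rfl, hP u, hiff u⟩⟩

theorem hardf_scale (z : ℕ → ℝ) (c : ℝ) (f : SF) :
    sval (fun v => c * z v) f = c ^ 2 * sval z f := by
  unfold sval
  induction f with
  | nil => simp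
  | cons e f ih =>
    rw [List.map_cons, List.sum_cons, ih, List.map_cons, List.sum_cons]
    ring

theorem st_HARDF (h1 : ST_BALL) (h2 : ST_SYS) (h3 : ST_EVF) (h4 : ST_DEGF) (h5 : ST_PTF)
    (h6 : ST_PTFS) (h7 : ST_EK) : ST_HARDF := by
  obtain ⟨EK, hEKP, hEKs⟩ := h7
  obtain ⟨hFs, hM⟩ := h6 (List Bool) EK hEKP
  obtain ⟨p1, p2, p3, p4⟩ := h5 (List Bool) (fun u => MM (EK u)) (fun u => FS (EK u)) hM hFs
  have key : ∀ u : List Bool, SFB (MM (EK u)) (FS (EK u)) ∧ 0 < CC (MM (EK u)) (FS (EK u)) ∧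
      (u ∈ ETR ↔ ∃ z : ℕ → ℝ, z 0 = 1 ∧ ∀ f ∈ FS (EK u), sval z f = 0) ∧
      ((∃ z : ℕ → ℝ, z 0 = 1 ∧ ∀ f ∈ FS (EK u), sval z f = 0) ↔
        ∃ z : ℕ → ℝ, (∃ v < MM (EK u), z v ≠ 0) ∧ ∀ f ∈ FS (EK u), sval z f = 0) := by
    intro u
    obtain ⟨E, hE, hB, hBl, hiff⟩ := hEKs u
    obtain ⟨s1, s2, s3, s4⟩ := h2 E hB hBl
    rw [← hE] at s1 s2 s3 s4
    refine ⟨s1, s2, ?_, ?_⟩
    · rw [← s3, ← hiff]
      exact Iff.rfl
    · constructor
      · rintro ⟨z, hz0, hz⟩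
        refine ⟨z, ⟨0, ?_, ?_⟩, hz⟩
        · unfold MM
          omega
        · rw [hz0]
          exact one_ne_zero
      · rintro ⟨z, ⟨v, hv, hzv⟩, hz⟩
        have hz0 : z 0 ≠ 0 := fun h => hzv (s4 z hz h v hv)
        refine ⟨fun v => (z 0)⁻¹ * z v, inv_mul_cancel₀ hz0, fun f hf => ?_⟩
        rw [hardf_scale, hz f hf, mul_zero]
  have hball : ∀ u : List Bool, u ∈ ETR ↔
      ∃ z y, BallR (MM (EK u)) (FS (EK u)) z y ∧ CubR (MM (EK u)) (FS (EK u)) z y := by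
    intro u
    obtain ⟨s1, s2, s3, s4⟩ := key u
    rw [s3, s4]
    exact h1 _ _ s1 s2
  refine ⟨?_, ?_, ?_, ?_⟩
  · refine hardf_gen _ (fun u => F23 (MM (EK u)) (FS (EK u))) (fun u => ?_) p1 fun u => ?_
    · obtain ⟨d1, d2, d3, d4, d5, d6, d7⟩ := h4 (MM (EK u)) (FS (EK u))
      exact ⟨d1, d5.le⟩
    · rw [(h3 _ _ (key u).1).1]
      exact hball u
  · refine hardf_gen _ (fun u => F33 (MM (EK u)) (FS (EK u))) (fun u => ?_) p2 fun u => ?_
    · obtain ⟨d1, d2, d3, d4, d5, d6, d7⟩ := h4 (MM (EK u)) (FS (EK u))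
      exact ⟨d2, d6.le⟩
    · rw [(h3 _ _ (key u).1).2.1]
      exact hball u
  · refine hardf_gen _ (fun u => F4 (MM (EK u)) (FS (EK u))) (fun u => ?_) p3 fun u => ?_
    · obtain ⟨d1, d2, d3, d4, d5, d6, d7⟩ := h4 (MM (EK u)) (FS (EK u))
      exact ⟨d3, by omega⟩
    · rw [(h3 _ _ (key u).1).2.2.1]
      exact (key u).2.2.1
  · refine hardf_gen _ (fun u => F2 (MM (EK u)) (FS (EK u))) (fun u => ?_) p4 fun u => ?_
    · obtain ⟨d1, d2, d3, d4, d5, d6, d7⟩ := h4 (MM (EK u)) (FS (EK u))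
      exact d4
    · rw [(h3 _ _ (key u).1).2.2.2]
      exact (key u).2.2.1

end Pool.Agent.Helper35.DCT
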